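import Mathlib

set_option autoImplicit false

/-!
# Some `ω₂`-Kurepa tree has a branch space which is not a retract

If there is an `ω₂`-Kurepa tree `T`, then there is one, `T'`, whose branch space is not a retract of
`ω₂ ^ ω₂`: take the product of `T` and the tree of all `0`-`1`-sequences with finitely many ones. If
every element of `T` is in at least `ℵ₃` branches, then the same is true for `T'`.
-/

namespace Pool.Agent.Results.MP_bf47cd_lc.NotRetract

open Set Cardinal

/-- the well-ordered set `ω₂` -/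
abbrev K : Type := (ℵ_ 2).ord.ToType

/-- a tree of sequences of length `< ω₂` in `ω₂`, closed under initial segments; `level α` is the set
of its elements of length `α` -/
structure Tree where
  level : ∀ α : K, Set (Iio α → K)
  restrict : ∀ (α β : K) (h : β ≤ α) (σ : Iio α → K), σ ∈ level α →
    (fun x : Iio β => σ ⟨x.1, lt_of_lt_of_le x.2 h⟩) ∈ level β

/-- the set of branches -/
def Tree.branches (T : Tree) : Set (K → K) := {x | ∀ α : K, (fun b : Iio α => x b.1) ∈ T.level α}

/-- `T` is an `ω₂`-Kurepa tree -/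
def Tree.Kurepa (T : Tree) : Prop :=
  (∀ α : K, (T.level α).Nonempty ∧ #(T.level α) ≤ ℵ_ 1) ∧ ℵ_ 3 ≤ #T.branches

/-- every element of `T` is an initial segment of at least `ℵ₃` branches -/
def Tree.Large (T : Tree) : Prop :=
  ∀ (α : K), ∀ σ ∈ T.level α, ℵ_ 3 ≤ #{x : K → K | x ∈ T.branches ∧ ∀ b : Iio α, x b.1 = σ b}

/-- the bounded topology on `ω₂ ^ ω₂` -/
@[reducible] def bdd : TopologicalSpace (K → K) :=
  TopologicalSpace.generateFrom
    {N | ∃ (α : K) (σ : Iio α → K), N = {x : K → K | ∀ b : Iio α, x b.1 = σ b}}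

/-- the branch space of `T` is a retract of `ω₂ ^ ω₂` -/
def Tree.IsRetract (T : Tree) : Prop :=
  ∃ r : (K → K) → T.branches, @Continuous (K → K) T.branches bdd (bdd.induced Subtype.val) r ∧
    ∀ y : T.branches, r y.1 = y

lemma aleph0_le : ℵ₀ ≤ ℵ_ 2 := aleph0_le_aleph 2

instance : NoMaxOrder K := Cardinal.noMaxOrder aleph0_le

lemma mk_K : #K = ℵ_ 2 := by rw [mk_toType, card_ord]

instance : Infinite K := by
  rw [Cardinal.infinite_iff, mk_K]; exact aleph0_le

lemma mk_Iio (a : K) : #(Iio a) ≤ ℵ_ 1 := by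
  have h : #(Iio a) < ℵ_ 2 := mk_Iio_toType_ord_lt a
  have h2 : Order.succ (ℵ_ 1) = (ℵ_ 2 : Cardinal) := by
    rw [succ_aleph, one_add_one_eq_two]
  exact Order.lt_succ_iff.1 (lt_of_lt_of_le h h2.ge)

lemma bounded (b : ℕ → K) : ∃ c : K, ∀ n, b n < c := by
  by_contra hcon
  push Not at hcon
  have h1 : (univ : Set K) ⊆ ⋃ n, Iic (b n) := by
    intro x _
    obtain ⟨n, hn⟩ := hcon x
    exact mem_iUnion.2 ⟨n, hn⟩
  have h2 : ∀ n, #(Iic (b n)) ≤ ℵ_ 1 := by
    intro n
    obtain ⟨c, hc⟩ := exists_gt (b n)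
    refine (mk_le_mk_of_subset ?_).trans (mk_Iio c)
    intro x hx
    exact lt_of_le_of_lt hx hc
  have h3 : #K ≤ ℵ_ 1 := by
    calc #K = #(univ : Set K) := mk_univ.symm
      _ ≤ #(⋃ n, Iic (b n)) := mk_le_mk_of_subset h1
      _ ≤ Cardinal.sum fun n => #(Iic (b n)) := mk_iUnion_le_sum_mk
      _ ≤ Cardinal.sum fun _ : ℕ => ℵ_ 1 := Cardinal.sum_le_sum _ _ h2
      _ = ℵ₀ * ℵ_ 1 := by rw [Cardinal.sum_const]; simp
      _ = ℵ_ 1 := Cardinal.aleph0_mul_aleph 1
  rw [mk_K] at h3
  exact absurd h3 (not_le.2 (aleph_lt_aleph.2 (by norm_num)))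

lemma open_bdd {U : Set (K → K)} (hU : @IsOpen _ bdd U) : ∀ x ∈ U, ∃ β : K, ∀ y : K → K,
    (∀ b < β, y b = x b) → y ∈ U := by
  have hU' : TopologicalSpace.GenerateOpen
    {N | ∃ (α : K) (σ : Iio α → K), N = {x : K → K | ∀ b : Iio α, x b.1 = σ b}} U := hU
  induction hU' with
  | basic N hN =>
    obtain ⟨α, σ, rfl⟩ := hN
    intro x hx
    refine ⟨α, fun y hy b => ?_⟩
    rw [hy b.1 b.2]
    exact hx b
  | univ => intro x _; exact ⟨Classical.arbitrary K, fun _ _ => mem_univ _⟩
  | inter s t hs ht ihs iht =>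
    intro x hx
    obtain ⟨β1, h1⟩ := ihs hs x hx.1
    obtain ⟨β2, h2⟩ := iht ht x hx.2
    refine ⟨max β1 β2, fun y hy => ⟨h1 y fun b hb => hy b (lt_max_of_lt_left hb),
      h2 y fun b hb => hy b (lt_max_of_lt_right hb)⟩⟩
  | sUnion S hS ih =>
    intro x hx
    obtain ⟨s, hs, hxs⟩ := hx
    obtain ⟨β, h⟩ := ih s hs (hS s hs) x hxs
    exact ⟨β, fun y hy => ⟨s, hs, h y hy⟩⟩

lemma isOpen_value (a v : K) : @IsOpen _ bdd {x : K → K | x a = v} := by
  obtain ⟨c, hc⟩ := exists_gt a
  have h1 : {x : K → K | x a = v} = ⋃₀ {N | (∃ (α : K) (σ : Iio α → K),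
      N = {x : K → K | ∀ b : Iio α, x b.1 = σ b}) ∧ N ⊆ {x : K → K | x a = v}} := by
    ext x
    constructor
    · intro hx
      refine ⟨{y : K → K | ∀ b : Iio c, y b.1 = x b.1}, ⟨⟨c, fun b => x b.1, rfl⟩, ?_⟩, fun _ => rfl⟩
      intro y hy
      have := hy ⟨a, hc⟩
      exact this.trans hx
    · rintro ⟨N, ⟨_, hN⟩, hx⟩
      exact hN hx
  rw [h1]
  apply TopologicalSpace.GenerateOpen.sUnion
  rintro N ⟨hN, _⟩
  exact TopologicalSpace.GenerateOpen.basic _ hN

lemma exists_emb : ∃ g : Bool × K → K, Function.Injective g := by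
  have h : #(Bool × K) ≤ #K := by
    rw [mk_prod]
    simp only [lift_id, mk_bool]
    have hi : ℵ₀ ≤ #K := Cardinal.infinite_iff.1 inferInstance
    have h2 : (2 : Cardinal) ≤ #K := by
      refine le_trans ?_ hi
      exact_mod_cast (Cardinal.natCast_lt_aleph0 (n := 2)).le
    exact (mul_le_mul' h2 le_rfl).trans (Cardinal.mul_eq_self hi).le
  obtain ⟨g⟩ := h
  exact ⟨g, g.injective⟩

/-- the product of `T` and the tree of the `0`-`1`-sequences with finitely many ones -/
def prod (T : Tree) (g : Bool × K → K) : Tree where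
  level α := {σ | ∃ (s : Iio α → Bool) (τ : Iio α → K), {a | s a = true}.Finite ∧ τ ∈ T.level α ∧
    σ = fun b => g (s b, τ b)}
  restrict := by
    rintro α β h σ ⟨s, τ, hs, hτ, rfl⟩
    refine ⟨fun x => s ⟨x.1, lt_of_lt_of_le x.2 h⟩, _, ?_, T.restrict α β h τ hτ, rfl⟩
    refine Set.Finite.of_finite_image (f := fun x : Iio β => (⟨x.1, lt_of_lt_of_le x.2 h⟩ : Iio α))
      (hs.subset ?_) ?_
    · rintro _ ⟨x, hx, rfl⟩; exact hx
    · intro x _ y _ hxy
      exact Subtype.ext (congrArg (fun z : Iio α => z.1) hxy)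

lemma mk_fin (α : K) : #{s : Iio α → Bool | {a | s a = true}.Finite} ≤ ℵ_ 1 := by
  let F : {s : Iio α → Bool | {a | s a = true}.Finite} → Finset (Iio α) := fun s => s.2.toFinset
  have hF : Function.Injective F := by
    rintro ⟨s, h1⟩ ⟨t, h2⟩ h
    have h5 : ∀ a, s a = true ↔ t a = true := by
      intro a
      have := congrArg (fun s : Finset (Iio α) => a ∈ s) h
      simpa [F] using this
    apply Subtype.ext
    funext a
    exact Bool.eq_iff_iff.2 (h5 a)
  refine (mk_le_of_injective hF).trans ?_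
  have h6 : #(Finset (Iio α)) ≤ max ℵ₀ #(Iio α) := by
    rcases finite_or_infinite (Iio α) with hfin | hinf
    · exact ((Cardinal.lt_aleph0_of_finite _).le).trans (le_max_left _ _)
    · rw [Cardinal.mk_finset_of_infinite]; exact le_max_right _ _
  exact h6.trans (max_le (aleph0_le_aleph 1) (mk_Iio α))

lemma prod_kurepa (T : Tree) (g : Bool × K → K) (hg : Function.Injective g) (hT : T.Kurepa) :
    (prod T g).Kurepa := by
  refine ⟨fun α => ⟨?_, ?_⟩, ?_⟩
  · obtain ⟨τ, hτ⟩ := (hT.1 α).1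
    exact ⟨_, fun _ => false, τ, by simp, hτ, rfl⟩
  · let F : {s : Iio α → Bool | {a | s a = true}.Finite} × T.level α → (Iio α → K) :=
      fun p b => g (p.1.1 b, p.2.1 b)
    have h1 : (prod T g).level α ⊆ Set.range F := by
      rintro σ ⟨s, τ, hs, hτ, rfl⟩
      exact ⟨(⟨s, hs⟩, ⟨τ, hτ⟩), rfl⟩
    calc #((prod T g).level α) ≤ #(Set.range F) := mk_le_mk_of_subset h1
      _ ≤ #({s : Iio α → Bool | {a | s a = true}.Finite} × T.level α) := mk_range_le
      _ = #{s : Iio α → Bool | {a | s a = true}.Finite} * #(T.level α) := by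
          rw [mk_prod, lift_id, lift_id]
      _ ≤ ℵ_ 1 * ℵ_ 1 := mul_le_mul' (mk_fin α) (hT.1 α).2
      _ = ℵ_ 1 := Cardinal.mul_eq_self (aleph0_le_aleph 1)
  · refine hT.2.trans ?_
    let F : T.branches → (prod T g).branches := fun x =>
      ⟨fun a => g (false, x.1 a), fun α => ⟨fun _ => false, _, by simp, x.2 α, rfl⟩⟩
    refine mk_le_of_injective (f := F) ?_
    intro x y hxy
    apply Subtype.ext
    funext a
    have := congrFun (congrArg Subtype.val hxy) a
    exact (Prod.ext_iff.1 (hg this)).2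

lemma prod_large (T : Tree) (g : Bool × K → K) (hg : Function.Injective g) (hT : T.Large) :
    (prod T g).Large := by
  classical
  rintro α σ ⟨s, τ, hs, hτ, rfl⟩
  refine (hT α τ hτ).trans ?_
  let u : K → Bool := fun a => if h : a < α then s ⟨a, h⟩ else false
  have hu : ∀ β : K, {a : Iio β | u a.1 = true}.Finite := by
    intro β
    refine Set.Finite.of_finite_image (f := fun x : Iio β => x.1)
      ((hs.image (fun x : Iio α => x.1)).subset ?_) (fun x _ y _ h => Subtype.ext h)
    rintro _ ⟨x, hx, rfl⟩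
    have hx' : u x.1 = true := hx
    by_cases h : x.1 < α
    · refine ⟨⟨x.1, h⟩, ?_, rfl⟩
      simp only [u, dif_pos h] at hx'
      exact hx'
    · simp [u, dif_neg h] at hx'
  let F : {x : K → K | x ∈ T.branches ∧ ∀ b : Iio α, x b.1 = τ b} →
      {x : K → K | x ∈ (prod T g).branches ∧ ∀ b : Iio α, x b.1 = g (s b, τ b)} := fun x =>
    ⟨fun a => g (u a, x.1 a), fun β => ⟨fun a => u a.1, _, hu β, x.2.1 β, rfl⟩, fun b => by
      have h1 : u b.1 = s b := dif_pos b.2
      change g (u b.1, x.1 b.1) = _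
      rw [h1, x.2.2 b]⟩
  refine mk_le_of_injective (f := F) ?_
  intro x y hxy
  apply Subtype.ext
  funext a
  have := congrFun (congrArg Subtype.val hxy) a
  exact (Prod.ext_iff.1 (hg this)).2

lemma prod_not_retract (T : Tree) (g : Bool × K → K) (hg : Function.Injective g)
    (hT : T.branches.Nonempty) : ¬ (prod T g).IsRetract := by
  rintro ⟨r, hr, hid⟩
  classical
  obtain ⟨t0, ht0⟩ := hT
  let e : Finset K → K → K := fun A a => g (decide (a ∈ A), t0 a)
  have he : ∀ A, e A ∈ (prod T g).branches := by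
    intro A α
    refine ⟨fun a => decide (a.1 ∈ A), _, ?_, ht0 α, rfl⟩
    refine Set.Finite.of_finite_image (f := fun x : Iio α => x.1) (A.finite_toSet.subset ?_)
      (fun x _ y _ h => Subtype.ext h)
    rintro _ ⟨x, hx, rfl⟩
    simpa using hx
  have hcont : ∀ (A : Finset K) (β : K), ∃ γ, β < γ ∧ ∀ y : K → K,
      (∀ b < γ, y b = e (insert β A) b) → (r y).1 β = g (true, t0 β) := by
    intro A β
    have h1 : @IsOpen _ bdd ((fun x => (r x).1) ⁻¹' {x : K → K | x β = g (true, t0 β)}) := by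
      have h2 := isOpen_value β (g (true, t0 β))
      have h3 : @IsOpen _ (bdd.induced Subtype.val)
          ((Subtype.val : (prod T g).branches → (K → K)) ⁻¹' {x : K → K | x β = g (true, t0 β)}) :=
        ⟨_, h2, rfl⟩
      exact (@continuous_def _ _ bdd (bdd.induced Subtype.val) r).1 hr _ h3
    have h4 : e (insert β A) ∈ (fun x => (r x).1) ⁻¹' {x : K → K | x β = g (true, t0 β)} := by
      have h5 : r (e (insert β A)) = ⟨e (insert β A), he _⟩ := hid ⟨e (insert β A), he _⟩
      change (r (e (insert β A))).1 β = g (true, t0 β)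
      rw [h5]
      simp [e]
    obtain ⟨γ, hγ⟩ := open_bdd h1 _ h4
    obtain ⟨δ, hδ⟩ := exists_gt (max β γ)
    exact ⟨δ, lt_of_le_of_lt (le_max_left _ _) hδ, fun y hy => hγ y fun b hb =>
      hy b (hb.trans (lt_of_le_of_lt (le_max_right _ _) hδ))⟩
  choose nx hnx1 hnx2 using hcont
  let st : ℕ → Finset K × K := fun n => Nat.rec (∅, Classical.arbitrary K)
    (fun _ p => (insert p.2 p.1, nx p.1 p.2)) n
  have hst : ∀ n, st (n + 1) = (insert (st n).2 (st n).1, nx (st n).1 (st n).2) := fun n => rfl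
  let b : ℕ → K := fun n => (st n).2
  have hb : StrictMono b := strictMono_nat_of_lt_succ fun n => by
    change (st n).2 < (st (n + 1)).2
    rw [hst]; exact hnx1 _ _
  have hmem : ∀ n x, x ∈ (st n).1 ↔ ∃ i < n, b i = x := by
    intro n
    induction n with
    | zero => intro x; simp [st]
    | succ n ih =>
      intro x
      rw [hst, Finset.mem_insert, ih]
      constructor
      · rintro (h | ⟨i, hi, h⟩)
        · exact ⟨n, Nat.lt_succ_self n, h.symm⟩
        · exact ⟨i, Nat.lt_succ_of_lt hi, h⟩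
      · rintro ⟨i, hi, h⟩
        rcases Nat.lt_succ_iff_lt_or_eq.1 hi with h' | h'
        · exact Or.inr ⟨i, h', h⟩
        · subst h'; exact Or.inl h.symm
  let y : K → K := fun a => g (decide (∃ i, b i = a), t0 a)
  have hy : ∀ n, (r y).1 (b n) = g (true, t0 (b n)) := by
    intro n
    apply hnx2 (st n).1 (st n).2 y
    intro c hc
    have hc' : c < b (n + 1) := by
      change c < (st (n + 1)).2
      rw [hst]; exact hc
    have h1 : (∃ i, b i = c) ↔ c ∈ insert (st n).2 (st n).1 := by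
      have h3 := hmem (n + 1) c
      rw [hst] at h3
      refine Iff.trans ?_ h3.symm
      constructor
      · rintro ⟨i, hi⟩
        refine ⟨i, ?_, hi⟩
        rw [← hi] at hc'
        exact hb.lt_iff_lt.1 hc'
      · rintro ⟨i, _, hi⟩; exact ⟨i, hi⟩
    simp only [y, e]
    rw [decide_eq_decide.2 h1]
  obtain ⟨c, hc⟩ := bounded b
  obtain ⟨s, τ, hs, _, hσ⟩ := (r y).2 c
  have hinj : Function.Injective (fun n : ℕ => (⟨b n, hc n⟩ : Iio c)) := fun i j h =>
    hb.injective (congrArg Subtype.val h)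
  have hinf := Set.infinite_range_of_injective hinj
  apply hinf
  refine hs.subset ?_
  rintro _ ⟨n, rfl⟩
  have h1 := congrFun hσ ⟨b n, hc n⟩
  have h2 : (r y).1 (b n) = g (s ⟨b n, hc n⟩, τ ⟨b n, hc n⟩) := h1
  rw [hy n] at h2
  exact ((Prod.ext_iff.1 (hg h2)).1).symm

theorem result (T : Tree) (hT : T.Kurepa) :
    ∃ T' : Tree, T'.Kurepa ∧ ¬ T'.IsRetract ∧ (T.Large → T'.Large) := by
  obtain ⟨g, hg⟩ := exists_emb
  refine ⟨prod T g, prod_kurepa T g hg hT, prod_not_retract T g hg ?_, prod_large T g hg⟩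
  by_contra hne
  rw [Set.not_nonempty_iff_eq_empty] at hne
  have h := hT.2
  rw [hne, Cardinal.mk_eq_zero] at h
  exact absurd h (not_le.2 ((aleph0_pos).trans_le (aleph0_le_aleph 3)))

end Pool.Agent.Results.MP_bf47cd_lc.NotRetract
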